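import Pool.Agent.N522.BIA.Main

/-!
# Geometric origin for Bianchi newforms: a potential criterion
-/

open Pool.Agent.N522.BIA

/-- (i) A representation `σ` of `G_K` arises from étale cohomology if its restriction to `G_L` does,
for some finite extension `L/K`. (ii) It arises from étale cohomology if `σ ⊗ τ` and `τ` do, for some
`τ ≠ 0`. (iii) `ρ_{f,p}` arises from étale cohomology for every Bianchi newform `f` whose Galois
conjugate `f^c` is a twist of `f`. -/
theorem Pool.Agent.Results.MP_2e0e07_nt.PotentialOrigin.result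
    {C G : Type} [Field C] [Group G] (T : Theory C G) (hT : TensorFacts T)
    (hI : InductionFacts T) (N : Newforms C G) (hN : Descent T N) :
    (∀ (H : Subgroup G), T.Open H → ∀ {W V : Type} [AddCommGroup W] [Module C W]
      [AddCommGroup V] [Module C V] (σ : Act C G W) (ρ : Act C H V),
      T.GeoOver H ρ → IsSubquotient ρ (σ.res H) → T.Geo σ) ∧
    (∀ {V U : Type} [AddCommGroup V] [Module C V] [AddCommGroup U] [Module C U] [Nontrivial U]
      (σ : Act C G V) (τ : Act C G U) (π : Act C G (TensorProduct C V U)), IsTensor σ τ π →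
      T.Geo π → T.Geo τ → T.Geo σ) ∧
    (∀ f : N.Form, N.ConjTwist f → T.Geo (N.rep f)) := by
  refine ⟨fun H hH {_ _} _ _ _ _ σ ρ hρ h => geo_of_potential hT hI σ H hH ρ hρ h,
    fun {_ _} _ _ _ _ _ σ τ π hπ h1 h2 => geo_of_tensor hT σ τ π hπ h1 h2, ?_⟩
  intro f hf
  obtain ⟨H, hH, h⟩ := hN f hf
  exact geo_of_potential hT hI _ H hH _ h (isSubquotient_self _)
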